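import Mathlib

/-!
# MP_3923f3_nt: Baker's constant is at least `log 13 / log 3 > 7 / 3`

The quadruple `(3, 2, -1, 0)` is admissible, `m(3, 2, -1) = 3`, and the least solution of
`3 p + 2 q = r` in primes is `(3, 2, 13)`.
-/

set_option autoImplicit false

namespace Pool.Agent.Results.MP_3923f3_nt.BakerConstantAboveOne

/-- the admissible quadruples of the problem -/
structure Admissible (a b c d : ℤ) : Prop where
  a_ne : a ≠ 0
  b_ne : b ≠ 0
  c_ne : c ≠ 0
  not_pos : ¬ (0 < a ∧ 0 < b ∧ 0 < c)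
  not_neg : ¬ (a < 0 ∧ b < 0 ∧ c < 0)
  even : Even (a + b + c - d)
  gcd_abc : Int.gcd (Int.gcd a b) c = 1
  gcd_dab : Int.gcd (Int.gcd d a) b = 1
  gcd_dac : Int.gcd (Int.gcd d a) c = 1
  gcd_dbc : Int.gcd (Int.gcd d b) c = 1

/-- `m(a, b, c) = max(3, |a|, |b|, |c|)` -/
def m (a b c : ℤ) : ℤ := max 3 (max |a| (max |b| |c|))

/-- `μ` is good: every admissible quadruple has a solution in primes with
`max(p, q, r) ≤ 3 |d| + m(a, b, c) ^ μ`. -/
def Good (μ : ℝ) : Prop := ∀ a b c d : ℤ, Admissible a b c d →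
  ∃ p q r : ℕ, p.Prime ∧ q.Prime ∧ r.Prime ∧ a * p + b * q + c * r = d ∧
    ((max p (max q r) : ℕ) : ℝ) ≤ 3 * |(d : ℝ)| + (m a b c : ℝ) ^ μ

theorem admissible : Admissible 3 2 (-1) 0 where
  a_ne := by norm_num
  b_ne := by norm_num
  c_ne := by norm_num
  not_pos := by norm_num
  not_neg := by norm_num
  even := ⟨2, by norm_num⟩
  gcd_abc := by norm_num
  gcd_dab := by norm_num
  gcd_dac := by norm_num
  gcd_dbc := by norm_num

theorem least {p q r : ℕ} (hp : p.Prime) (hq : q.Prime) (hr : r.Prime) (h : r = 3 * p + 2 * q) :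
    13 ≤ r := by
  have hp2 := hp.two_le
  have hq2 := hq.two_le
  rcases hp.eq_two_or_odd' with h2 | ⟨k, hk⟩
  · exfalso
    rcases hr.eq_two_or_odd' with h3 | ⟨l, hl⟩
    · omega
    · omega
  · omega

theorem good_ge {μ : ℝ} (h : Good μ) : Real.log 13 / Real.log 3 ≤ μ := by
  obtain ⟨p, q, r, hp, hq, hr, he, hle⟩ := h 3 2 (-1) 0 admissible
  have h1 : r = 3 * p + 2 * q := by
    have : (r : ℤ) = 3 * p + 2 * q := by linarith
    exact_mod_cast this
  have h2 : 13 ≤ r := least hp hq hr h1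
  have h3 : (13 : ℝ) ≤ ((max p (max q r) : ℕ) : ℝ) := by
    exact_mod_cast h2.trans ((le_max_right _ _).trans (le_max_right _ _))
  have h4 : m 3 2 (-1) = 3 := by unfold m; norm_num
  rw [h4] at hle
  have h5 : (13 : ℝ) ≤ (3 : ℝ) ^ μ := by
    have := h3.trans hle
    simpa using this
  have h6 : (0 : ℝ) < Real.log 3 := Real.log_pos (by norm_num)
  rw [div_le_iff₀ h6, ← Real.log_rpow (by norm_num)]
  exact Real.log_le_log (by norm_num) h5

theorem seven_thirds : (7 : ℝ) / 3 < Real.log 13 / Real.log 3 := by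
  have h6 : (0 : ℝ) < Real.log 3 := Real.log_pos (by norm_num)
  rw [div_lt_div_iff₀ (by norm_num) h6]
  have h1 : Real.log ((3 : ℝ) ^ 7) < Real.log ((13 : ℝ) ^ 3) :=
    Real.log_lt_log (by norm_num) (by norm_num)
  rw [Real.log_pow, Real.log_pow] at h1
  push_cast at h1
  linarith

/-- Every good `μ` is at least `log 13 / log 3 > 7 / 3`; so Baker's constant
`M = inf {μ : μ is good}` satisfies `M ≥ log 13 / log 3` and `M ≠ 1`. -/
theorem result : (∀ μ : ℝ, Good μ → Real.log 13 / Real.log 3 ≤ μ) ∧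
    (7 : ℝ) / 3 < Real.log 13 / Real.log 3 ∧
    (∀ M : ℝ, IsGLB {μ : ℝ | Good μ} M → Real.log 13 / Real.log 3 ≤ M ∧ M ≠ 1) := by
  refine ⟨fun μ h => good_ge h, seven_thirds, fun M hM => ?_⟩
  have h1 : Real.log 13 / Real.log 3 ≤ M := hM.2 fun μ h => good_ge h
  have h2 := seven_thirds
  exact ⟨h1, by intro h; linarith⟩

end Pool.Agent.Results.MP_3923f3_nt.BakerConstantAboveOne
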