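import Pool.Agent.Y883.T6.One6

/-!
# MP_3923f3_nt: small prime solutions of linear equations with one large coefficient

A quadruple `(a, b, c, d)` of integers is admissible (`Admissible`) if `a`, `b`, `c` are nonzero and
not all of the same sign, `a + b + c - d` is even, and each of `gcd(a, b, c)`, `gcd(d, a, b)`,
`gcd(d, a, c)`, `gcd(d, b, c)` is one. The constant `M` of Baker is the infimum of the exponents `μ` for
which every admissible equation `a p + b q + c r = d` has a solution in primes with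

  `max(p, q, r) ≤ 3 |d| + m ^ μ`, `m = max(3, |a|, |b|, |c|)`   (`SmallSolution μ a b c d`).

It is conjectured that `M = 1`; it is known that `1 ≤ M ≤ 45`, and `M ≤ 4` on the generalized Riemann
hypothesis.

**Theorem.** (1) There is one set `D` of positive integers, with at most `X ^ o(1)` members up to `X`,
such that for all `θ > 1`, `η > 0` and `T` there are `c₀` and a set `F`, which is **empty** if `θ > 3 / 2`
and has at most `X ^ (2 - θ + η)` members up to `X` for all `X ≥ c₀`, with the following property. For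
**all** admissible quadruples with `|c| ≥ c₀`, `|a|, |b| ≤ (log |c|) ^ T`, `|c| ∉ F`, and such that no
`e ∈ D` with `e > (log |c|) ^ T` divides `c`, the equation `a p + b q + c r = d` has a solution in primes
with

  `max(p, q, r) ≤ 3 |d| + |c| ^ θ`.

(2) Consequently, for all `ε > 0`, `A` and `T` and all `X ≥ X₀(ε, A, T)`, for all but `X / (log X) ^ A` of
the integers `1 ≤ n ≤ X`, **all** admissible equations with `|c| = n`, `|a|, |b| ≤ (log n) ^ T` and
arbitrary `d` have a solution in primes with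

  `max(p, q, r) ≤ 3 |d| + m ^ (1 + ε)`.

So the conjectured exponent `M = 1` holds for almost all `c` when the other two coefficients are at most
powers of the logarithm of `|c|`, uniformly in `d` and without any hypothesis (it is best possible here, as
the equations `p + q = n r` show), and the exponent `3 / 2 + ε` holds for all `c` without large divisors in
a very sparse set.
-/

set_option autoImplicit false

namespace Pool.Agent.Results.MP_3923f3_nt.OneLargeCoefficient

open Finset
open Pool.Agent.Y883.T5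
open Pool.Agent.Y883.T6

open Classical in
/-- **Small prime solutions of linear equations with one large coefficient.** -/
theorem result : ∃ D : Set ℕ,
    (∀ ε : ℝ, 0 < ε → ∃ X₀ : ℕ, ∀ X : ℕ, X₀ ≤ X →
      (((Icc 1 X).filter (fun e => e ∈ D)).card : ℝ) ≤ (X : ℝ) ^ ε) ∧
    (∀ θ : ℝ, 1 < θ → ∀ η : ℝ, 0 < η → ∀ T : ℕ, ∃ (c₀ : ℕ) (F : Set ℕ),
      (∀ X : ℕ, c₀ ≤ X → (((Icc 1 X).filter (fun n => n ∈ F)).card : ℝ) ≤ (X : ℝ) ^ (2 - θ + η)) ∧
      (3 / 2 < θ → F = ∅) ∧
      ∀ a b c d : ℤ, Admissible a b c d → c₀ ≤ c.natAbs → c.natAbs ∉ F →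
        (∀ e ∈ D, Real.log |(c : ℝ)| ^ T < (e : ℝ) → ¬ (e : ℤ) ∣ c) →
        |(a : ℝ)| ≤ Real.log |(c : ℝ)| ^ T → |(b : ℝ)| ≤ Real.log |(c : ℝ)| ^ T →
        ∃ p q r : ℕ, p.Prime ∧ q.Prime ∧ r.Prime ∧ a * p + b * q + c * r = d ∧
          ((max p (max q r) : ℕ) : ℝ) ≤ 3 * |(d : ℝ)| + |(c : ℝ)| ^ θ) ∧
    (∀ ε : ℝ, 0 < ε → ∀ A T : ℕ, ∃ X₀ : ℕ, ∀ X : ℕ, X₀ ≤ X →
      (((Icc 1 X).filter (fun n : ℕ => ¬ ∀ a b c d : ℤ, Admissible a b c d → c.natAbs = n →
        |(a : ℝ)| ≤ Real.log |(c : ℝ)| ^ T → |(b : ℝ)| ≤ Real.log |(c : ℝ)| ^ T →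
        SmallSolution (1 + ε) a b c d)).card : ℝ) ≤ (X : ℝ) / Real.log X ^ A) := by
  obtain ⟨D, h1, h2, h3⟩ := one6
  exact ⟨D, h2, h3, one_dens6 h1 h3⟩

end Pool.Agent.Results.MP_3923f3_nt.OneLargeCoefficient
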