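import Pool.Agent.Y883.T6.Fin6

/-!
# MP_3923f3_nt: small prime solutions of linear equations with three large coefficients

A quadruple `(a, b, c, d)` of integers is admissible (`Admissible`) if `a`, `b`, `c` are nonzero and
not all of the same sign, `a + b + c - d` is even, and each of `gcd(a, b, c)`, `gcd(d, a, b)`,
`gcd(d, a, c)`, `gcd(d, b, c)` is one. The constant of Baker is the infimum of the exponents `μ` for
which every admissible equation `a p + b q + c r = d` has a solution in primes with

  `max(p, q, r) ≤ 3 |d| + m ^ μ`, `m = max(3, |a|, |b|, |c|)`   (`SmallSolution μ a b c d`).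

It is known that it is at most `45`, and at most `4` on the generalized Riemann hypothesis.

**Theorem.** (1) There is one set `D` of positive integers, with at most `X ^ o(1)` members up to `X`,
such that the following holds for all `θ > 1`, `η > 0` and `T`. There are `Δ₀` and a set `F` of
integers, which is **empty** if `θ > 3 / 2` and has at most `X ^ (2 - θ + η)` members up to `X` for all
`X ≥ Δ₀`, such that for **all** admissible quadruples with `Δ = max(|a b|, |b c|, |c a|) ≥ Δ₀`, for which
the three pairs `(u, v) = (a, b), (b, c), (c, a)` satisfy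

  `gcd(u, v) ≤ (log Δ) ^ T`, no `e ∈ D` with `e > (log Δ) ^ T` divides `u v`, and
  `|u v| ≤ (log Δ) ^ T` or `|u v| ∉ F`   (`GoodPair`),

the equation `a p + b q + c r = d` has a solution in primes with

  `max(|a| p, |b| q, |c| r) ≤ 3 |d| + min(|a|, |b|, |c|) Δ ^ θ`,

in particular with `max(p, q, r) ≤ 3 |d| + Δ ^ θ ≤ 3 |d| + m ^ (2 θ)`.

(2) Consequently, for all `ε > 0` and `A` and all `X ≥ X₀(ε, A)`, for all but `X ^ 3 / (log X) ^ A` of the
triples `(|a|, |b|, |c|)` of positive integers up to `X`, **all** admissible equations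
`a p + b q + c r = d` with these absolute values of the coefficients and with an arbitrary `d` have a
solution in primes with

  `max(p, q, r) ≤ 3 |d| + m ^ (2 + ε)`.

So the exponent is `2 + ε` for almost all triples of coefficients, and `3 + ε` for all triples outside an
explicitly structured exceptional set (greatest common divisors and multiples of a very sparse set),
uniformly in `d` and without any hypothesis.

The proof replaces the von Mangoldt function by its model, the normalised indicator function of the
integers without small prime factors, in one unknown after the other. The error is bounded by means of the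
values of the exponential sum of the difference at the translates of the fractions with denominator `q`, the
product of the two other coefficients; for all `q` outside `F` which are not multiples of members of `D`
few of these values are large. The model equation is solved with a lower bound of the right order.
-/

set_option autoImplicit false

namespace Pool.Agent.Results.MP_3923f3_nt.ThreeLargeCoefficients

open Finset
open Pool.Agent.Y883.T5
open Pool.Agent.Y883.T6

open Classical in
/-- **Small prime solutions of linear equations with three large coefficients.** -/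
theorem result : ∃ D : Set ℕ,
    (∀ ε : ℝ, 0 < ε → ∃ X₀ : ℕ, ∀ X : ℕ, X₀ ≤ X →
      (((Icc 1 X).filter (fun e => e ∈ D)).card : ℝ) ≤ (X : ℝ) ^ ε) ∧
    (∀ θ : ℝ, 1 < θ → ∀ η : ℝ, 0 < η → ∀ T : ℕ, ∃ (Δ₀ : ℕ) (F : Set ℕ),
      (∀ X : ℕ, Δ₀ ≤ X → (((Icc 1 X).filter (fun n => n ∈ F)).card : ℝ) ≤ (X : ℝ) ^ (2 - θ + η)) ∧
      (3 / 2 < θ → F = ∅) ∧
      ∀ a b c d : ℤ, Admissible a b c d →
        ∀ Δ : ℕ, Δ = max (a * b).natAbs (max (b * c).natAbs (c * a).natAbs) → Δ₀ ≤ Δ →
        GoodPair T D F Δ a b → GoodPair T D F Δ b c → GoodPair T D F Δ c a →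
        ∃ p q r : ℕ, p.Prime ∧ q.Prime ∧ r.Prime ∧ a * p + b * q + c * r = d ∧
          ((max (a.natAbs * p) (max (b.natAbs * q) (c.natAbs * r)) : ℕ) : ℝ) ≤
            3 * |(d : ℝ)| + (min a.natAbs (min b.natAbs c.natAbs) : ℕ) * (Δ : ℝ) ^ θ) ∧
    (∀ ε : ℝ, 0 < ε → ∀ A : ℕ, ∃ X₀ : ℕ, ∀ X : ℕ, X₀ ≤ X →
      (((Icc 1 X ×ˢ Icc 1 X ×ˢ Icc 1 X).filter (fun t : ℕ × ℕ × ℕ => ¬ ∀ a b c d : ℤ, Admissible a b c d →
        a.natAbs = t.1 → b.natAbs = t.2.1 → c.natAbs = t.2.2 → SmallSolution (2 + ε) a b c d)).card : ℝ) ≤
        (X : ℝ) ^ 3 / Real.log X ^ A) := by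
  obtain ⟨D, h1, h2, h3⟩ := main6
  exact ⟨D, h2, h3, dens6 h1 h3⟩

end Pool.Agent.Results.MP_3923f3_nt.ThreeLargeCoefficients
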